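import Pool.Agent.H14.ES.Stm

set_option autoImplicit false

/-! Part PAR: paradoxical decomposition of the nonempty finite subsets. -/

namespace H40.ES

open H14.ES

theorem head_inv (s : Bool) (g : FreeGroup Bool) (h : g.toWord.head? ≠ some (s, true)) :
    ((FreeGroup.of s)⁻¹ * g).toWord.head? = some (s, false) := by
  have e : ((FreeGroup.of s)⁻¹ * g) = FreeGroup.mk ((s, false) :: g.toWord) := by
    conv_lhs => rw [← FreeGroup.mk_toWord (x := g)]
    rfl
  rw [e, FreeGroup.toWord_mk, FreeGroup.reduce.cons, FreeGroup.reduce_toWord]
  cases hw : g.toWord with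
  | nil => rfl
  | cons a L =>
    have hne : ¬ (s = a.1 ∧ false = !a.2) := by
      rintro ⟨h1, h2⟩
      apply h
      rw [hw]
      obtain ⟨a1, a2⟩ := a
      simp only [List.head?_cons, Option.some.injEq, Prod.mk.injEq]
      refine ⟨h1.symm, ?_⟩
      simpa using h2
    simp only
    rw [if_neg hne]
    rfl

theorem t_PAR : S_PAR := by
  intro I ρ hfree m hm0 hm κ hκ
  classical
  obtain ⟨act, hact⟩ : ∃ act : FreeGroup Bool → Finset I → Finset I,
      ∀ h A, act h A = A.map (ρ h).toEmbedding := ⟨_, fun _ _ => rfl⟩
  have act_mul : ∀ h k A, act (h * k) A = act h (act k A) := by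
    intro h k A
    rw [hact, hact, hact, Finset.map_map]
    congr 1
    ext i
    simp
  have act_one : ∀ A, act 1 A = A := by
    intro A
    rw [hact, map_one]
    exact Finset.map_refl
  have act_free : ∀ h A, A.Nonempty → act h A = A → h = 1 := by
    intro h A hA hh
    obtain ⟨i, hi⟩ := hA
    by_contra h1
    have hmem : ∀ n : ℕ, ρ (h ^ n) i ∈ A := by
      intro n
      induction n with
      | zero => simpa using hi
      | succ n ih =>
        rw [pow_succ', map_mul, Equiv.Perm.mul_apply]
        rw [← hh, hact]
        exact Finset.mem_map_of_mem _ ih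
    obtain ⟨n, n', hne, heq⟩ := Finite.exists_ne_map_eq_of_infinite
      (fun n : ℕ => (⟨ρ (h ^ n) i, hmem n⟩ : A))
    have heq' : ρ (h ^ n) i = ρ (h ^ n') i := congrArg Subtype.val heq
    have key : ∀ a b : ℕ, a < b → ρ (h ^ a) i = ρ (h ^ b) i → False := by
      intro a b hab he
      obtain ⟨c, rfl⟩ := Nat.exists_eq_add_of_lt hab
      have h2 : ρ (h ^ (c + 1)) (ρ (h ^ a) i) = ρ (h ^ a) i := by
        rw [← Equiv.Perm.mul_apply, ← map_mul, ← pow_add]
        conv_rhs => rw [he]
        congr 3
        ring
      have h3 := hfree _ _ h2
      have h4 : h ^ (c + 1) = 1 ^ (c + 1) := by rw [h3, one_pow]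
      exact h1 (pow_left_injective (by omega : c + 1 ≠ 0) h4)
    rcases Nat.lt_or_gt_of_ne hne with h4 | h4
    · exact key n n' h4 heq'
    · exact key n' n h4 heq'.symm
  -- representatives
  let S : Setoid (Finset I) :=
    { r := fun A B => ∃ h, act h A = B
      iseqv := ⟨fun A => ⟨1, act_one A⟩, fun {A B} ⟨h, e⟩ => ⟨h⁻¹, by
          rw [← e, ← act_mul, inv_mul_cancel, act_one]⟩,
        fun {A B C} ⟨h, e⟩ ⟨k, e'⟩ => ⟨k * h, by rw [act_mul, e, e']⟩⟩ }
  obtain ⟨rep, hrep⟩ : ∃ rep : Finset I → Finset I, ∀ A, rep A = (Quotient.mk S A).out :=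
    ⟨_, fun _ => rfl⟩
  have hex : ∀ A, ∃ h, act h (rep A) = A := by
    intro A
    rw [hrep]
    have := Quotient.mk_out (s := S) A
    exact this
  have hrepact : ∀ h A, rep (act h A) = rep A := by
    intro h A
    rw [hrep, hrep]
    congr 1
    apply Quotient.sound
    exact ⟨h⁻¹, by rw [← act_mul, inv_mul_cancel, act_one]⟩
  choose r hr using hex
  have hrepne : ∀ A : Finset I, A.Nonempty → (rep A).Nonempty := by
    intro A hA
    rw [Finset.nonempty_iff_ne_empty]
    intro h0
    have := hr A
    rw [h0, hact, Finset.map_empty] at this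
    exact hA.ne_empty this.symm
  have hract : ∀ h A, A.Nonempty → r (act h A) = h * r A := by
    intro h A hA
    have h1 := hr (act h A)
    rw [hrepact] at h1
    have h2 : act (h * r A) (rep A) = act h A := by rw [act_mul, hr]
    have h3 : act ((h * r A)⁻¹ * r (act h A)) (rep A) = rep A := by
      rw [act_mul, h1, ← h2, ← act_mul, inv_mul_cancel, act_one]
    have h4 := act_free _ _ (hrepne A hA) h3
    exact (inv_mul_eq_one.1 h4).symm
  -- the pieces
  obtain ⟨W, hW⟩ : ∃ W : Bool → Bool → Set (Finset I), ∀ s b, W s b =
      {A | A.Nonempty ∧ (r A).toWord.head? = some (s, b)} := ⟨_, fun _ _ => rfl⟩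
  obtain ⟨N, hN⟩ : ∃ N : Set (Finset I), N = {A | A.Nonempty} := ⟨_, rfl⟩
  have hsub : ∀ s, ∀ A ∈ N, A ∈ W s true ∨ A ∈ act (FreeGroup.of s) '' W s false := by
    intro s A hA
    rw [hN] at hA
    by_cases h : (r A).toWord.head? = some (s, true)
    · left
      rw [hW]
      exact ⟨hA, h⟩
    · right
      refine ⟨act (FreeGroup.of s)⁻¹ A, ?_, ?_⟩
      · rw [hW]
        refine ⟨?_, ?_⟩
        · rw [hact]; exact (Finset.map_nonempty).2 hA
        · rw [hract _ _ hA]
          exact head_inv s _ h
      · rw [← act_mul, mul_inv_cancel, act_one]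
  have hinj : ∀ h, Function.Injective (act h) := by
    intro h A B hAB
    have := congrArg (act h⁻¹) hAB
    rwa [← act_mul, ← act_mul, inv_mul_cancel, act_one, act_one] at this
  have hT : ∀ S : Set (Finset I), ∑' A : S, m A = ∑' A, S.indicator m A := fun S =>
    tsum_subtype S m
  have hsum : ∀ S : Set (Finset I), Summable (S.indicator m) := fun S => hm.indicator S
  have h1 : ∀ s, ∑' A : N, m A ≤ ∑' A : W s true, m A + (∑' A : W s false, m A + κ) := by
    intro s
    have e1 : ∑' A : N, m A ≤ ∑' A : W s true, m A +
        ∑' A : (act (FreeGroup.of s) '' W s false : Set (Finset I)), m A := by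
      rw [hT, hT, hT, ← (hsum _).tsum_add (hsum _)]
      refine (hsum _).tsum_le_tsum (fun A => ?_) ((hsum _).add (hsum _))
      by_cases hA : A ∈ N
      · rw [Set.indicator_of_mem hA]
        rcases hsub s A hA with h | h
        · rw [Set.indicator_of_mem h]
          have := Set.indicator_nonneg (s := act (FreeGroup.of s) '' W s false)
            (fun A _ => hm0 A) A
          linarith
        · rw [Set.indicator_of_mem h]
          have := Set.indicator_nonneg (s := W s true) (fun A _ => hm0 A) A
          linarith
      · rw [Set.indicator_of_notMem hA]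
        have h2 := Set.indicator_nonneg (s := act (FreeGroup.of s) '' W s false)
            (fun A _ => hm0 A) A
        have h3 := Set.indicator_nonneg (s := W s true) (fun A _ => hm0 A) A
        linarith
    have e2 : ∑' A : (act (FreeGroup.of s) '' W s false : Set (Finset I)), m A =
        ∑' A : W s false, m (act (FreeGroup.of s) A) :=
      tsum_image m ((hinj _).injOn)
    have e3 := hκ s (W s false)
    simp only [← hact] at e3
    rw [e2] at e1
    linarith
  have h2 : ∑' A : W true true, m A + ∑' A : W true false, m A +
      (∑' A : W false true, m A + ∑' A : W false false, m A) ≤ ∑' A : N, m A := by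
    rw [hT, hT, hT, hT, hT, ← (hsum _).tsum_add (hsum _), ← (hsum _).tsum_add (hsum _),
      ← ((hsum _).add (hsum _)).tsum_add ((hsum _).add (hsum _))]
    refine (((hsum _).add (hsum _)).add ((hsum _).add (hsum _))).tsum_le_tsum (fun A => ?_)
      (hsum _)
    by_cases hA : A ∈ N
    · rw [Set.indicator_of_mem hA]
      have hm1 := hm0 A
      by_cases a1 : A ∈ W true true
      · have a2 : A ∉ W true false := by
          rw [hW] at a1 ⊢
          rintro ⟨-, h⟩
          have := a1.2.symm.trans h
          simp at this
        have a3 : A ∉ W false true := by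
          rw [hW] at a1 ⊢
          rintro ⟨-, h⟩
          have := a1.2.symm.trans h
          simp at this
        have a4 : A ∉ W false false := by
          rw [hW] at a1 ⊢
          rintro ⟨-, h⟩
          have := a1.2.symm.trans h
          simp at this
        rw [Set.indicator_of_mem a1, Set.indicator_of_notMem a2, Set.indicator_of_notMem a3,
          Set.indicator_of_notMem a4]
        linarith
      · rw [Set.indicator_of_notMem a1]
        by_cases a2 : A ∈ W true false
        · have a3 : A ∉ W false true := by
            rw [hW] at a2 ⊢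
            rintro ⟨-, h⟩
            have := a2.2.symm.trans h
            simp at this
          have a4 : A ∉ W false false := by
            rw [hW] at a2 ⊢
            rintro ⟨-, h⟩
            have := a2.2.symm.trans h
            simp at this
          rw [Set.indicator_of_mem a2, Set.indicator_of_notMem a3, Set.indicator_of_notMem a4]
          linarith
        · rw [Set.indicator_of_notMem a2]
          by_cases a3 : A ∈ W false true
          · have a4 : A ∉ W false false := by
              rw [hW] at a3 ⊢
              rintro ⟨-, h⟩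
              have := a3.2.symm.trans h
              simp at this
            rw [Set.indicator_of_mem a3, Set.indicator_of_notMem a4]
            linarith
          · rw [Set.indicator_of_notMem a3]
            by_cases a4 : A ∈ W false false
            · rw [Set.indicator_of_mem a4]
              linarith
            · rw [Set.indicator_of_notMem a4]
              linarith
    · have hz : ∀ s b, A ∉ W s b := by
        intro s b h
        rw [hW] at h
        rw [hN] at hA
        exact hA h.1
      rw [Set.indicator_of_notMem hA, Set.indicator_of_notMem (hz _ _),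
        Set.indicator_of_notMem (hz _ _), Set.indicator_of_notMem (hz _ _),
        Set.indicator_of_notMem (hz _ _)]
      linarith
  have h3 := h1 true
  have h4 := h1 false
  subst hN
  have h5 : ∑' A : ({A | A.Nonempty} : Set (Finset I)), m A =
      ∑' A : {A : Finset I // A.Nonempty}, m A := rfl
  rw [← h5]
  linarith

end H40.ES
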