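import Pool.Agent.H14.ES.Stm

set_option autoImplicit false

/-! Part MAI: the main theorem of block I. -/

namespace H40.ES

open H14.ES MeasureTheory Set
open scoped ENNReal commutatorElement

theorem coin_single (b : Bool) : coin {b} = 2⁻¹ := by
  unfold coin
  rw [Measure.smul_apply, Measure.add_apply, Measure.dirac_apply, Measure.dirac_apply,
    smul_eq_mul]
  cases b <;> simp

theorem mu_single (x : ℕ → Bool) : mu ℕ {x} = 0 := by
  have h : ∀ n : ℕ, mu ℕ {x} ≤ (2⁻¹ : ℝ≥0∞) ^ n := by
    intro n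
    have h1 : ({x} : Set (ℕ → Bool)) ⊆ Set.pi (Finset.range n : Set ℕ) (fun i => {x i}) := by
      rintro y hy i -
      rw [mem_singleton_iff] at hy
      rw [hy]
      rfl
    refine (measure_mono h1).trans (le_of_eq ?_)
    unfold mu
    rw [Measure.infinitePi_pi _ (fun i _ => measurableSet_singleton _)]
    simp only [coin_single, Finset.prod_const, Finset.card_range]
  have h2 : Filter.Tendsto (fun n : ℕ => (2⁻¹ : ℝ≥0∞) ^ n) Filter.atTop (nhds 0) :=
    ENNReal.tendsto_pow_atTop_nhds_zero_of_lt_one (by simp)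
  exact le_antisymm (ge_of_tendsto' h2 h) bot_le

theorem sh_mul {I : Type} (p q : Equiv.Perm I) (ω : I → Bool) : sh (p * q) ω = sh p (sh q ω) := by
  funext i
  unfold sh
  rw [mul_inv_rev, Equiv.Perm.mul_apply]

theorem sh_one {I : Type} (ω : I → Bool) : sh (1 : Equiv.Perm I) ω = ω := by
  funext i
  simp [sh]

theorem sh_mp (hREI : S_REI) {I : Type} [Countable I] (p : Equiv.Perm I) :
    MeasurePreserving (sh p) (mu I) (mu I) := by
  have h := hREI I I (p⁻¹ : Equiv.Perm I)
  exact h

theorem t_MAI (hREI : S_REI) (hHOM : S_HOM) (hGRP : S_GRP) (hERC : S_ERC) : S_MAI := by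
  intro Λ _ _ Y _ _ _ hsm hfree f hf hρ hπ
  obtain ⟨g1, g2, g3, g4⟩ := hGRP
  by_contra hcon0
  have hcon : ∀ (x0 : ℕ → Bool) (y0 : Y), ¬ ∀ᵐ x ∂(mu D0), ∃ l : Λ, f (x0, x) = l • y0 :=
    fun x0 y0 h => hcon0 ⟨x0, y0, h⟩
  haveI : Countable (FreeGroup Bool) := by
    exact Function.Injective.countable (f := FreeGroup.toWord) FreeGroup.toWord_injective
  -- the good points
  have key : ∀ x0 : ℕ → Bool,
      (∀ s, ∀ᵐ x ∂(mu D0), ∃ l : Λ, f (x0, sh (rhoD (FreeGroup.of s)) x) = l • f (x0, x)) →
      (∀ s, ∀ᵐ x ∂(mu D0), ∃ l : Λ, f (x0, sh (piD x0 (FreeGroup.of s)) x) = l • f (x0, x)) →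
      ∃ φ : FreeGroup Bool →* Λ, ∀ n, x0 n = true ↔ φ (wd n) ≠ 1 := by
    intro x0 h1 h2
    have h3 : ∀ k, ∀ᵐ x ∂(mu D0), ∃ l : Λ, f (x0, sh (piD x0 k) x) = l • f (x0, x) := by
      intro k
      induction k using FreeGroup.induction_on with
      | C1 =>
        filter_upwards with x
        exact ⟨1, by rw [map_one, sh_one, one_smul]⟩
      | of s => exact h2 s
      | inv_of s h =>
        have h4 := (sh_mp hREI (piD x0 (FreeGroup.of s)⁻¹)).quasiMeasurePreserving.ae h
        filter_upwards [h4] with x hx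
        obtain ⟨l, hl⟩ := hx
        rw [← sh_mul, ← map_mul, mul_inv_cancel, map_one, sh_one] at hl
        exact ⟨l⁻¹, by rw [hl, inv_smul_smul]⟩
      | mul a b ha hb =>
        have h4 := (sh_mp hREI (piD x0 b)).quasiMeasurePreserving.ae ha
        filter_upwards [h4, hb] with x hx hx2
        obtain ⟨l, hl⟩ := hx
        obtain ⟨l2, hl2⟩ := hx2
        rw [← sh_mul, ← map_mul] at hl
        exact ⟨l * l2, by rw [hl, hl2, mul_smul]⟩
    have hfm : Measurable (fun x => f (x0, x)) := hf.comp (measurable_const.prodMk measurable_id)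
    obtain ⟨f', φ, hf', hff, hφ⟩ := hHOM D0 rhoD g1 (FreeGroup Bool) (piD x0) (g2 x0)
      ⟨_, g3 x0⟩ Λ Y hsm hfree (fun x => f (x0, x)) hfm h1 h3
    refine ⟨φ, fun n => ?_⟩
    constructor
    · intro hn h1'
      have hinf : InfOrb (piD x0 (wd n)) := by
        rintro ⟨u, e, z⟩ k hk
        have hp : ∀ k : ℕ, ∀ z : ℤ, (piD x0 (wd n) ^ k) (u, (e, z)) = (u, (e, z + k)) := by
          intro k
          induction k with
          | zero => intro z; simp
          | succ k ih =>
            intro z
            rw [pow_succ, Equiv.Perm.mul_apply, g4, hn, ih]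
            simp only [if_true, Prod.mk.injEq, true_and]
            push_cast
            ring
        rw [hp]
        intro h
        simp only [Prod.mk.injEq, true_and] at h
        omega
      obtain ⟨y, hy⟩ := hERC D0 (piD x0 (wd n)) hinf Y f' hf' (by
        filter_upwards [hφ (wd n)] with x hx
        rw [hx, h1', one_smul])
      apply hcon x0 y
      filter_upwards [hy] with x hx
      obtain ⟨l, hl⟩ := hff x
      refine ⟨l⁻¹, ?_⟩
      rw [← hx, hl, inv_smul_smul]
    · intro hne
      by_contra hn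
      apply hne
      have hn' : x0 n = false := by simpa using hn
      have hid : piD x0 (wd n) = 1 := by
        ext1 q
        obtain ⟨u, e, z⟩ := q
        rw [g4, hn']
        simp
      obtain ⟨x, hx⟩ := (hφ (wd n)).exists
      rw [hid, sh_one] at hx
      exact hfree _ _ hx.symm
  have hae : ∀ᵐ x0 ∂(mu ℕ), ∃ φ : FreeGroup Bool →* Λ, ∀ n, x0 n = true ↔ φ (wd n) ≠ 1 := by
    filter_upwards [ae_all_iff.2 hρ, ae_all_iff.2 hπ] with x0 h1 h2
    exact key x0 h1 h2
  -- countably many homomorphisms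
  obtain ⟨G, hG⟩ : ∃ G : Set (ℕ → Bool), G = {x0 | ∃ φ : FreeGroup Bool →* Λ, ∀ n,
    x0 n = true ↔ φ (wd n) ≠ 1} := ⟨_, rfl⟩
  have hcG : G.Countable := by
    haveI : Countable (FreeGroup Bool →* Λ) := by
      refine Function.Injective.countable
        (f := fun φ : FreeGroup Bool →* Λ => (φ (FreeGroup.of true), φ (FreeGroup.of false))) ?_
      intro φ ψ h
      simp only [Prod.mk.injEq] at h
      apply FreeGroup.ext_hom
      intro b
      cases b
      · exact h.2
      · exact h.1
    classical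
    have hsub : G ⊆ Set.range (fun φ : FreeGroup Bool →* Λ => fun n => decide (φ (wd n) ≠ 1)) := by
      intro x0 hx
      rw [hG] at hx
      obtain ⟨φ, hφ⟩ := hx
      refine ⟨φ, ?_⟩
      funext n
      by_cases h : x0 n = true
      · rw [h]
        exact decide_eq_true ((hφ n).1 h)
      · have h' : x0 n = false := by simpa using h
        rw [h']
        exact decide_eq_false (fun h2 => h ((hφ n).2 h2))
    exact (Set.countable_range _).mono hsub
  have hG0 : mu ℕ G = 0 := by
    rw [← Set.biUnion_of_singleton G]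
    exact (measure_biUnion_null_iff hcG).2 fun x _ => mu_single x
  have hG1 : mu ℕ Gᶜ = 0 := by
    rw [hG]
    exact hae
  have hu : mu ℕ Set.univ = 0 := by
    rw [← Set.union_compl_self G]
    exact measure_union_null hG0 hG1
  rw [measure_univ] at hu
  exact one_ne_zero hu

end H40.ES
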